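import Mathlib
import Pool.Agent.X23.DM2

/-!
# Multicolour Ramsey numbers of degree-monotone 3-paths: `M_k(3) / 2 ^ k → 1`
-/

open Finset Filter Topology
open scoped symmDiff

namespace Pool.Agent.Results.MP_7de56e_co.LimitOne

open Pool.Agent.X23.DM

/-- The number of edges of colour `j` at the vertex `v`, for a colouring `c` of the edges of
`K_n` with `k` colours (`c u v` is the colour of the edge `uv`, for `u ≠ v`). -/
def deg {n k : ℕ} (c : Fin n → Fin n → Fin k) (j : Fin k) (v : Fin n) : ℕ :=
  (Finset.univ.filter fun u => u ≠ v ∧ c v u = j).card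

/-- Some colour class `G_j` contains a path of order `m` that is degree-monotone in `G_j`. -/
def HasMonoPath {n k : ℕ} (c : Fin n → Fin n → Fin k) (m : ℕ) : Prop :=
  ∃ (j : Fin k) (p : Fin m → Fin n), Function.Injective p ∧
    ∀ a b : Fin m, (b : ℕ) = a + 1 → c (p a) (p b) = j ∧ deg c j (p a) ≤ deg c j (p b)

/-- The set of all `M` such that for every `n ≥ M` every colouring of the edges of `K_n` with `k`
colours has a colour class with a degree-monotone path of order `m`. -/
def Good (k m : ℕ) : Set ℕ :=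
  {M | ∀ n ≥ M, ∀ c : Fin n → Fin n → Fin k, (∀ u v, c u v = c v u) → HasMonoPath c m}

/-- The Ramsey number `M_k(m)`. -/
noncomputable def ramsey (k m : ℕ) : ℕ := sInf (Good k m)

/-- upper endpoint of an edge of colour `j` in the order by degree, then label -/
def Up {n k : ℕ} (c : Fin n → Fin n → Fin k) (v : Fin n) (j : Fin k) : Prop :=
  ∃ u, u ≠ v ∧ c v u = j ∧ (deg c j u < deg c j v ∨ (deg c j u = deg c j v ∧ u < v))

theorem upper (k : ℕ) : 2 ^ k + 1 ∈ Good k 3 := by
  classical
  intro n hn c hc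
  by_contra hcon
  have hpath : ∀ (j : Fin k) (x y z : Fin n), x ≠ y → y ≠ z → x ≠ z → c x y = j → c y z = j →
      deg c j x ≤ deg c j y → deg c j y ≤ deg c j z → False := by
    intro j x y z hxy hyz hxz h1 h2 h3 h4
    apply hcon
    refine ⟨j, ![x, y, z], ?_, ?_⟩
    · intro a b hab
      fin_cases a <;> fin_cases b <;> simp_all
    · intro a b hab
      fin_cases a <;> fin_cases b <;> simp at hab ⊢
      · exact ⟨h1, h3⟩
      · exact ⟨h2, h4⟩
  have key : ∀ (u v : Fin n) (j : Fin k), u ≠ v → c u v = j →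
      (deg c j u < deg c j v ∨ (deg c j u = deg c j v ∧ u < v)) →
      Up c v j ∧ ¬ Up c u j := by
    intro u v j huv hcuv hlt
    refine ⟨⟨u, huv, by rw [hc]; exact hcuv, hlt⟩, ?_⟩
    rintro ⟨w, hwu, hcw, hlt'⟩
    have hwv : w ≠ v := by
      rintro rfl
      rcases hlt with h | ⟨h, h'⟩ <;> rcases hlt' with g | ⟨g, g'⟩
      · omega
      · omega
      · omega
      · exact absurd (h'.trans g') (lt_irrefl _)
    refine hpath j w u v hwu huv hwv (by rw [hc]; exact hcw) hcuv ?_ ?_
    · rcases hlt' with g | ⟨g, -⟩ <;> omega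
    · rcases hlt with g | ⟨g, -⟩ <;> omega
  have hinj : Function.Injective (fun (v : Fin n) (j : Fin k) => decide (Up c v j)) := by
    intro u v huv
    by_contra hne
    have hj := congrFun huv (c u v)
    rcases lt_trichotomy (deg c (c u v) u) (deg c (c u v) v) with h | h | h
    · have := key u v _ hne rfl (Or.inl h)
      simp [this.1, this.2] at hj
    · rcases lt_or_gt_of_ne hne with h' | h'
      · have := key u v _ hne rfl (Or.inr ⟨h, h'⟩)
        simp [this.1, this.2] at hj
      · have := key v u (c u v) (Ne.symm hne) (hc v u) (Or.inr ⟨h.symm, h'⟩)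
        simp [this.1, this.2] at hj
    · have := key v u (c u v) (Ne.symm hne) (hc v u) (Or.inl h)
      simp [this.1, this.2] at hj
  have := Fintype.card_le_of_injective _ hinj
  rw [Fintype.card_fin, Fintype.card_fun, Fintype.card_bool, Fintype.card_fin] at this
  omega

/-- the vertices of the construction -/
def S (k : ℕ) : Finset (Finset (Fin k)) := univ.filter fun u => 4 ≤ u.card

theorem mem_S {k : ℕ} (u : Finset (Fin k)) : u ∈ S k ↔ 4 ≤ u.card := by
  simp [S]

theorem card_S (k : ℕ) (hk : 1 ≤ k) : 2 ^ k ≤ (S k).card + 4 * k ^ 3 := by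
  have h1 : (univ : Finset (Finset (Fin k))) = S k ∪ (range 4).biUnion
      fun i => powersetCard i univ := by
    ext u
    simp only [mem_univ, true_iff, mem_union, S, mem_filter, true_and, mem_biUnion, mem_range,
      mem_powersetCard, subset_univ]
    by_cases h : 4 ≤ u.card
    · exact Or.inl h
    · exact Or.inr ⟨u.card, by omega, rfl⟩
  have h2 : (univ : Finset (Finset (Fin k))).card = 2 ^ k := by
    rw [card_univ, Fintype.card_finset, Fintype.card_fin]
  rw [← h2, h1]
  refine (card_union_le _ _).trans (Nat.add_le_add_left ?_ _)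
  refine card_biUnion_le.trans ?_
  have h3 : ∀ i ∈ range 4, (powersetCard i (univ : Finset (Fin k))).card ≤ k ^ 3 := by
    intro i hi
    rw [mem_range] at hi
    rw [card_powersetCard, card_univ, Fintype.card_fin]
    exact (Nat.choose_le_pow k i).trans (Nat.pow_le_pow_right hk (by omega))
  refine (Finset.sum_le_sum h3).trans ?_
  simp

theorem lower (k : ℕ) (hk : 1000 ≤ k) : ∀ M ∈ Good k 3, (S k).card < M := by
  intro M hM
  by_contra hcon
  push Not at hcon
  obtain ⟨γ, hγ, hYX⟩ := exists_good hk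
  set e := (S k).equivFin with he
  set U : Fin (S k).card → Finset (Fin k) := fun a => (e.symm a : Finset (Fin k)) with hU
  have hUc : ∀ a, 4 ≤ (U a).card := by
    intro a
    exact (mem_S _).mp (e.symm a).2
  have hUinj : ∀ a b, U a = U b → a = b := by
    intro a b hab
    exact e.symm.injective (Subtype.ext hab)
  set c : Fin (S k).card → Fin (S k).card → Fin k := fun a b => γ (U a ∆ U b) with hc
  -- degrees
  have hdeg : ∀ (j : Fin k) (a : Fin (S k).card),
      deg c j a + (univ.filter fun d => (U a ∆ d).card ≤ 3 ∧ γ d = j).card =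
        (univ.filter fun d : Finset (Fin k) => d ≠ ∅ ∧ γ d = j).card := by
    intro j a
    have h1 : deg c j a =
        (univ.filter fun d : Finset (Fin k) => (d ≠ ∅ ∧ γ d = j) ∧ 4 ≤ (U a ∆ d).card).card := by
      rw [deg]
      refine Finset.card_bij (fun b _ => U a ∆ U b) ?_ ?_ ?_
      · intro b hb
        rw [mem_filter] at hb ⊢
        refine ⟨mem_univ _, ⟨?_, hb.2.2⟩, ?_⟩
        · intro h
          have : U a = U b := symmDiff_eq_bot.mp h
          exact hb.2.1 (hUinj _ _ this).symm
        · rw [symmDiff_symmDiff_cancel_left]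
          exact hUc b
      · intro b _ b' _ h
        exact hUinj _ _ (symmDiff_right_injective _ h)
      · intro d hd
        rw [mem_filter] at hd
        obtain ⟨-, ⟨hd0, hdj⟩, hd4⟩ := hd
        have hS : U a ∆ d ∈ S k := (mem_S _).mpr hd4
        have hUe : U (e ⟨U a ∆ d, hS⟩) = U a ∆ d := by
          simp only [hU]
          rw [Equiv.symm_apply_apply]
        refine ⟨e ⟨U a ∆ d, hS⟩, ?_, ?_⟩
        · rw [mem_filter]
          refine ⟨mem_univ _, ?_, ?_⟩
          · intro h
            rw [h] at hUe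
            apply hd0
            have h2 : U a ∆ U a = U a ∆ (U a ∆ d) := by rw [← hUe]
            rw [symmDiff_self, symmDiff_symmDiff_cancel_left] at h2
            exact h2.symm
          · simp only [hc]
            rw [hUe, symmDiff_symmDiff_cancel_left]
            exact hdj
        · rw [hUe, symmDiff_symmDiff_cancel_left]
    have h2 : (univ.filter fun d => (U a ∆ d).card ≤ 3 ∧ γ d = j).card =
        (univ.filter fun d : Finset (Fin k) => (d ≠ ∅ ∧ γ d = j) ∧ ¬ 4 ≤ (U a ∆ d).card).card := by
      congr 1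
      ext d
      simp only [mem_filter, mem_univ, true_and]
      constructor
      · rintro ⟨h3, h4⟩
        refine ⟨⟨?_, h4⟩, by omega⟩
        rintro rfl
        have h5 : U a ∆ (∅ : Finset (Fin k)) = U a := symmDiff_bot _
        rw [h5] at h3
        have := hUc a
        omega
      · rintro ⟨⟨-, h4⟩, h3⟩
        exact ⟨by omega, h4⟩
    rw [h1, h2, ← filter_filter, ← filter_filter (fun d : Finset (Fin k) => d ≠ ∅ ∧ γ d = j)]
    exact card_filter_add_card_filter_not _
  have hlt : ∀ (j : Fin k) (a b : Fin (S k).card), j ∉ U a → j ∈ U b →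
      deg c j b < deg c j a := by
    intro j a b ha hb
    have h1 := hdeg j a
    have h2 := hdeg j b
    have h3 : (univ.filter fun d => (U a ∆ d).card ≤ 3 ∧ γ d = j).card ≤ Yc j (U a) γ := by
      apply card_le_card
      intro d hd
      rw [mem_filter] at hd ⊢
      refine ⟨mem_univ _, ?_, hd.2.2⟩
      rw [R, mem_filter]
      refine ⟨mem_univ _, hd.2.1, ?_⟩
      have hd0 : d ≠ ∅ := by
        rintro rfl
        have h5 : U a ∆ (∅ : Finset (Fin k)) = U a := symmDiff_bot _
        rw [h5] at hd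
        have := hUc a
        omega
      have := hγ d hd0
      rw [hd.2.2] at this
      exact mem_symmDiff.mpr (Or.inr ⟨this, ha⟩)
    have h4 : Xc j (U b) γ ≤ (univ.filter fun d => (U b ∆ d).card ≤ 3 ∧ γ d = j).card := by
      apply card_le_card
      intro d hd
      rw [mem_filter, R', mem_filter] at hd
      rw [mem_filter]
      exact ⟨mem_univ _, hd.2.1.2.1.le, hd.2.2⟩
    have h5 := hYX j (U a) (U b) (hUc a) (hUc b) ha hb
    omega
  obtain ⟨j, p, hp, hpp⟩ := hM _ hcon c (fun u v => by simp only [hc]; rw [symmDiff_comm])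
  have h01 := hpp 0 1 rfl
  have h12 := hpp 1 2 rfl
  have hne01 : p 0 ≠ p 1 := fun h => absurd (hp h) (by decide)
  have hne12 : p 1 ≠ p 2 := fun h => absurd (hp h) (by decide)
  have hm : ∀ a b : Fin (S k).card, a ≠ b → c a b = j → j ∈ U a ∆ U b := by
    intro a b hab h
    have hd0 : U a ∆ U b ≠ ∅ := fun h' => hab (hUinj _ _ (symmDiff_eq_bot.mp h'))
    have := hγ _ hd0
    simp only [hc] at h
    rwa [h] at this
  have m1 := mem_symmDiff.mp (hm _ _ hne01 h01.1)
  have m2 := mem_symmDiff.mp (hm _ _ hne12 h12.1)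
  rcases m1 with ⟨a1, a2⟩ | ⟨a1, a2⟩
  · rcases m2 with ⟨b1, b2⟩ | ⟨b1, b2⟩
    · exact a2 b1
    · exact absurd h12.2 (not_le.mpr (hlt j _ _ a2 b1))
  · exact absurd h01.2 (not_le.mpr (hlt j _ _ a2 a1))

/-- The limit `lim M_k(3) / 2 ^ k` exists and equals `1`. -/
theorem result : (∀ k, (Good k 3).Nonempty) ∧
    Tendsto (fun k : ℕ => (ramsey k 3 : ℝ) / 2 ^ k) atTop (𝓝 1) := by
  refine ⟨fun k => ⟨_, upper k⟩, ?_⟩
  have h1 : Tendsto (fun k : ℕ => 1 - 4 * ((k : ℝ) ^ 3 / 2 ^ k)) atTop (𝓝 1) := by
    have := (tendsto_pow_const_div_const_pow_of_one_lt 3 (r := (2 : ℝ)) (by norm_num)).const_mul 4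
    simpa using this.const_sub 1
  have h2 : Tendsto (fun k : ℕ => 1 + ((1 : ℝ) / 2) ^ k) atTop (𝓝 1) := by
    have := tendsto_pow_atTop_nhds_zero_of_lt_one (r := (1 : ℝ) / 2) (by norm_num) (by norm_num)
    simpa using this.const_add 1
  refine tendsto_of_tendsto_of_tendsto_of_le_of_le' h1 h2 ?_ ?_
  · filter_upwards [eventually_ge_atTop 1000] with k hk
    have h3 : (S k).card < ramsey k 3 := lower k hk _ (Nat.sInf_mem ⟨_, upper k⟩)
    have h4 := card_S k (by omega)
    have h5 : 2 ^ k ≤ ramsey k 3 + 4 * k ^ 3 := by omega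
    have h6 : (2 ^ k : ℝ) ≤ ramsey k 3 + 4 * (k : ℝ) ^ 3 := by exact_mod_cast h5
    rw [le_div_iff₀ (by positivity), sub_mul, one_mul, mul_assoc,
      div_mul_cancel₀ _ (by positivity)]
    linarith
  · filter_upwards with k
    have h3 : ramsey k 3 ≤ 2 ^ k + 1 := Nat.sInf_le (upper k)
    have h4 : (ramsey k 3 : ℝ) ≤ 2 ^ k + 1 := by exact_mod_cast h3
    rw [div_le_iff₀ (by positivity), add_mul, one_mul, ← mul_pow]
    norm_num
    exact h4

end Pool.Agent.Results.MP_7de56e_co.LimitOne
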